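import Pool.Agent.Y714.KF.Stm2

set_option autoImplicit false

/-! The levels of the twisted size are null sets. -/

namespace Pool.Agent.Y681.KF

open NumberField Module Finset ComplexConjugate MeasureTheory Filter Topology Pool.Agent.Y714.KF
open scoped Pointwise

/-- The levels of a positively homogeneous continuous function on an open cone are null sets. -/
theorem levels {E : Type*} [NormedAddCommGroup E] [NormedSpace ℝ E] [MeasurableSpace E]
    [BorelSpace E] [FiniteDimensional ℝ E] (μ : Measure E) [μ.IsAddHaarMeasure] {U : Set E}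
    (hU : IsOpen U) {g : E → ℝ} (hg : ContinuousOn g U) {d : ℕ} (hd : d ≠ 0)
    (hh : ∀ l : ℝ, 0 < l → ∀ u ∈ U, l • u ∈ U ∧ g (l • u) = l ^ d * g u) {c : ℝ} (hc : 0 < c) :
    μ {u | u ∈ U ∧ g u = c} = 0 := by
  classical
  have hdil : ∀ l : ℝ, 0 < l → ∀ t : ℝ,
      {u | u ∈ U ∧ g u = l ^ d * t} = l • {u | u ∈ U ∧ g u = t} := by
    intro l hl t
    ext u
    rw [Set.mem_smul_set]
    constructor
    · rintro ⟨h1, h2⟩
      have h3 := hh l⁻¹ (inv_pos.2 hl) u h1
      refine ⟨l⁻¹ • u, ⟨h3.1, ?_⟩, ?_⟩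
      · rw [h3.2, h2, ← mul_assoc, ← mul_pow, inv_mul_cancel₀ hl.ne', one_pow, one_mul]
      · rw [smul_smul, mul_inv_cancel₀ hl.ne', one_smul]
    · rintro ⟨v, ⟨h1, h2⟩, rfl⟩
      have h3 := hh l hl v h1
      exact ⟨h3.1, by rw [h3.2, h2]⟩
  have hroot : ∀ t : ℝ, 0 < t → ∃ l : ℝ, 0 < l ∧ l ^ d = t := by
    intro t ht
    refine ⟨t ^ ((d : ℝ)⁻¹), by positivity, ?_⟩
    exact Real.rpow_inv_natCast_pow ht.le hd
  have hmeas : ∀ t : ℝ, 0 < t → (μ {u | u ∈ U ∧ g u = t} = 0 ↔ μ {u | u ∈ U ∧ g u = 1} = 0) := by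
    intro t ht
    obtain ⟨l, hl, hlt⟩ := hroot t ht
    have h1 := hdil l hl 1
    rw [mul_one, hlt] at h1
    rw [h1, Measure.addHaar_smul, mul_eq_zero]
    constructor
    · rintro (h | h)
      · exfalso
        rw [ENNReal.ofReal_eq_zero] at h
        have : 0 < |l ^ finrank ℝ E| := abs_pos.2 (pow_ne_zero _ hl.ne')
        linarith
      · exact h
    · exact fun h => Or.inr h
  rw [hmeas c hc]
  by_contra hne
  obtain ⟨G, hG⟩ : ∃ G : E → ℝ, G = U.piecewise g (fun _ => 0) := ⟨_, rfl⟩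
  have hGm : Measurable G := by
    rw [hG]
    exact ContinuousOn.measurable_piecewise hg continuousOn_const hU.measurableSet
  have hcnt := Measure.countable_meas_level_set_pos (μ := μ) hGm
  have hsub : Set.Ioi (0 : ℝ) ⊆ {t : ℝ | 0 < μ {a : E | G a = t}} := by
    intro t ht
    have ht' : 0 < t := ht
    have h1 : {a : E | G a = t} = {u | u ∈ U ∧ g u = t} := by
      ext a
      rw [hG]
      by_cases ha : a ∈ U
      · simp [Set.piecewise, ha]
      · simp only [Set.mem_ofPred_eq, Set.piecewise, ha, if_false, false_and, iff_false]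
        exact ht'.ne
    show 0 < μ {a : E | G a = t}
    rw [h1, pos_iff_ne_zero, Ne, hmeas t ht']
    exact hne
  have h2 := (hcnt.mono hsub).measure_zero (volume : Measure ℝ)
  rw [Real.volume_Ioi] at h2
  exact ENNReal.top_ne_zero h2

variable (K : Type) [Field K] [NumberField K]

theorem rw2_smul {ι : Type} [Fintype ι] [DecidableEq ι] (b : Basis ι ℚ K) (l : ℝ) (u : ι ⊕ ι → ℝ) :
    rw2 b (l • u) = fun σ => (l : ℂ) • rw2 b u σ := by
  funext σ
  unfold rw2 rv
  have h1 : (fun i => (l • u) (Sum.inl i)) = l • fun i => u (Sum.inl i) := rfl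
  have h2 : (fun i => (l • u) (Sum.inr i)) = l • fun i => u (Sum.inr i) := rfl
  rw [h1, h2, sg_smul, sg_smul]
  rfl

theorem continuous_rw2 {ι : Type} [Fintype ι] [DecidableEq ι] (b : Basis ι ℚ K) :
    Continuous fun u : ι ⊕ ι → ℝ => rw2 b u := by
  refine continuous_pi fun σ => ?_
  unfold rw2 rv
  refine Continuous.prodMk ?_ ?_
  · exact (continuous_sg b σ).comp (continuous_pi fun i => continuous_apply _)
  · exact (continuous_sg b σ).comp (continuous_pi fun i => continuous_apply _)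

theorem lev : S_LEV K := by
  intro _ h3 φ hφ b
  obtain ⟨-, hcont, hsm, -⟩ := hφ
  have hpm : Continuous fun u : Fin (finrank ℚ K) ⊕ Fin (finrank ℚ K) → ℝ => pm (rw2 b u) :=
    continuous_pm.comp (continuous_rw2 K b)
  have hsym : ∀ u : Fin (finrank ℚ K) ⊕ Fin (finrank ℚ K) → ℝ, Sym (rw2 b u) :=
    fun u => sym_rv b _ _
  have hcg : ContinuousOn (fun u => pm (rw2 b u) * φ (rw2 b u)) {u | 0 < pm (rw2 b u)} := by
    refine hpm.continuousOn.mul ?_
    exact hcont.comp (continuous_rw2 K b).continuousOn (fun u hu => ⟨hsym u, hu⟩)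
  refine ⟨hcg, fun c hc => ?_⟩
  have hd : 2 * finrank ℚ K ≠ 0 := by omega
  refine levels volume (isOpen_lt continuous_const hpm) hcg hd ?_ hc
  intro l hl u hu
  have hu' : 0 < pm (rw2 b u) := hu
  have h1 : pm (rw2 b (l • u)) = l ^ (2 * finrank ℚ K) * pm (rw2 b u) := by
    rw [rw2_smul, pm_smul]
    congr 1
    rw [prod_const, card_univ, card_emb, Complex.norm_real, Real.norm_eq_abs, abs_of_pos hl,
      pow_mul]
  have h2 : φ (rw2 b (l • u)) = φ (rw2 b u) := by
    rw [rw2_smul]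
    refine hsm (rw2 b u) (hsym u) hu' (fun _ => (l : ℂ)) (fun _ => ?_) (fun _ => ?_)
    · exact_mod_cast hl.ne'
    · rw [Complex.conj_ofReal]
  constructor
  · show 0 < pm (rw2 b (l • u))
    rw [h1]
    positivity
  · show pm (rw2 b (l • u)) * φ (rw2 b (l • u)) = _
    rw [h1, h2]
    ring

end Pool.Agent.Y681.KF
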